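import Pool.Agent.SRGWL.SosGrp
import Pool.Agent.SRGWL.GroupUpperP

/-!
# Special `p`-groups, not distinguished by Weisfeiler-Leman, sums of squares and polynomial calculus
(candidate for SpecialGroups)
-/

namespace Pool.Agent.SRGWL.Extra.SpecialInd

open Pool.Agent.SRGWL Sos

/-- `H` is a group of order `p ^ n` and exponent `p` whose commutator subgroup is its centre, of order
`p ^ d` (in particular `H` is nilpotent of class at most `2`). -/
def IsSpecial (p n d : ℕ) (H : Type) [Group H] : Prop :=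
  Nat.card H = p ^ n ∧ (∀ x : H, x ^ p = 1) ∧ commutator H = Subgroup.center H ∧
    Nat.card (Subgroup.center H) = p ^ d

theorem result :
    (∀ p : ℕ, p.Prime → p ≠ 2 → ∀ k : ℕ, 1 ≤ k →
      ∃ (H₁ H₂ : Type) (_ : Group H₁) (_ : Group H₂) (_ : Fintype H₁) (_ : Fintype H₂),
        IsSpecial p (256 * k + 16) 16 H₁ ∧ IsSpecial p (256 * k + 16) 16 H₂ ∧
        IsEmpty (H₁ ≃* H₂) ∧ GWLEquiv (2 * k - 1) H₁ H₂ ∧
        ∀ j : ℕ, 3 * j < 2 * k → GIndist p j H₁ H₂) ∧
    (∀ (H H' : Type) [Group H] [Group H'] [Fintype H] [Fintype H'] (k : ℕ), 1 ≤ k →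
      Nat.card H ≤ (Nat.card H).minFac ^ k → GWLEquiv k H H' → Nonempty (H ≃* H')) := by
  refine ⟨fun p hp hp2 k hk => ?_, fun H H' _ _ _ _ k hk hc h => identifies_minFac hk hc h⟩
  have : Fact p.Prime := ⟨hp⟩
  obtain ⟨A, D, r, hall, hD, hiso, hbase, hext⟩ := exists_special_groups2 p hp2 k hk
  have h2 := NonIso.two_ne hp2
  have S : Sys A D (2 * k) :=
    { sol := fun U => {C | Good A D r U C}
      isC := fun U C hC => hC.1
      base := ⟨0, hbase⟩
      mono := fun U U' hUU' C hC => good_mono hUU' hC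
      ext := fun U U' hUU' hU' C hC => hext U U' hUU' hU' C hC
      local_eq := fun U C hC u hu v hv ζ => good_local h2 hD hC hu hv ζ }
  exact ⟨G A 0, G A D, inferInstance, inferInstance, inferInstance, inferInstance,
    hall 0 (fun _ _ _ => by simp), hall D hD, hiso, gwlEquiv_of_sys S (by omega),
    fun j hj => gindist h2 hD (2 * k) hbase hext (by omega)⟩

end Pool.Agent.SRGWL.Extra.SpecialInd
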