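import Pool.Agent.SRGWL.IMD
import Pool.Agent.SRGWL.GroupUpperP

/-!
# The Weisfeiler-Leman dimension, with linear algebra, of special `p`-groups of exponent `p`

(1) For every odd prime `p` and every `k ≥ 1` there are two non-isomorphic groups of order
`p^(256 k + 16)` and exponent `p`, with commutator subgroup = centre of order `p^16`, that are not
distinguished by the `k`-dimensional Weisfeiler-Leman algorithm for groups with linear algebra over all
fields of characteristic different from `p` (with the strongest initial colouring).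
(2) `k`-dimensional Weisfeiler-Leman identifies all groups of order at most `q^k`, `q` the smallest
prime factor of the order.
-/

namespace Pool.Agent.SRGWL.Extra.SpecialLA

open Pool.Agent.SRGWL Sos IM

/-- `H` is a group of order `p ^ n` and exponent `p` whose commutator subgroup is its centre, of order
`p ^ d` (in particular `H` is nilpotent of class at most `2`). -/
def IsSpecial (p n d : ℕ) (H : Type) [Group H] : Prop :=
  Nat.card H = p ^ n ∧ (∀ x : H, x ^ p = 1) ∧ commutator H = Subgroup.center H ∧
    Nat.card (Subgroup.center H) = p ^ d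

theorem result :
    (∀ p : ℕ, p.Prime → p ≠ 2 → ∀ k : ℕ, 1 ≤ k →
      ∃ (H₁ H₂ : Type) (_ : Group H₁) (_ : Group H₂) (_ : Fintype H₁) (_ : Fintype H₂),
        IsSpecial p (256 * k + 16) 16 H₁ ∧ IsSpecial p (256 * k + 16) 16 H₂ ∧
        IsEmpty (H₁ ≃* H₂) ∧ GroupLAEquiv p k H₁ H₂) ∧
    (∀ (H H' : Type) [Group H] [Group H'] [Fintype H] [Fintype H'] (k : ℕ), 1 ≤ k →
      Nat.card H ≤ (Nat.card H).minFac ^ k → GWLEquiv k H H' → Nonempty (H ≃* H')) := by
  refine ⟨fun p hp hp2 k hk => ?_, fun H H' _ _ _ _ k hk hc h => identifies_minFac hk hc h⟩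
  have : Fact p.Prime := ⟨hp⟩
  obtain ⟨A, D, r, hall, hD, hiso, hbase, hext⟩ := exists_special_groups2 p hp2 k hk
  exact ⟨G A 0, G A D, inferInstance, inferInstance, inferInstance, inferInstance,
    hall 0 (fun _ _ _ => by simp), hall D hD, hiso,
    groupLAEquiv (NonIso.two_ne hp2) hD (2 * k) hbase hext (by omega) (by omega)⟩

end Pool.Agent.SRGWL.Extra.SpecialLA
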